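import Pool.Agent.H12.RA.AS.PGWr

/-!
Automorphisms of the free group preserving the standard flag of free factors.
-/

namespace Pool.Agent.Q24.CG

open Pool.Agent.Q24.PG

variable {n : ℕ}

/-- the free factor generated by the first basis elements `x j`, `j < i` -/
def low (i : Fin n) : Subgroup (FreeGroup (Fin n)) :=
  Subgroup.closure {x | ∃ j, j < i ∧ x = FreeGroup.of j}

theorem of_mem_low {i j : Fin n} (h : j < i) : FreeGroup.of j ∈ low i :=
  Subgroup.subset_closure ⟨j, h, rfl⟩

theorem low_mono {i j : Fin n} (h : i ≤ j) : low i ≤ low j := by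
  apply Subgroup.closure_mono
  rintro _ ⟨k, hk, rfl⟩
  exact ⟨k, lt_of_lt_of_le hk h, rfl⟩

/-- the shape of the image of `x i` -/
def Shape (i : Fin n) (w : FreeGroup (Fin n)) : Prop :=
  ∃ u ∈ low i, ∃ v ∈ low i, w = u * FreeGroup.of i * v ∨ w = u * (FreeGroup.of i)⁻¹ * v

theorem Shape.mem {i j : Fin n} (h : i < j) {w : FreeGroup (Fin n)} (hw : Shape i w) :
    w ∈ low j := by
  obtain ⟨u, hu, v, hv, h1 | h1⟩ := hw
  · rw [h1]
    exact mul_mem (mul_mem (low_mono h.le hu) (of_mem_low h)) (low_mono h.le hv)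
  · rw [h1]
    exact mul_mem (mul_mem (low_mono h.le hu) (inv_mem (of_mem_low h))) (low_mono h.le hv)

theorem map_low_of {i : Fin n} (φ : FreeGroup (Fin n) →* FreeGroup (Fin n))
    (h : ∀ j, j < i → φ (FreeGroup.of j) ∈ low i) {w : FreeGroup (Fin n)} (hw : w ∈ low i) :
    φ w ∈ low i := by
  have : low i ≤ (low i).comap φ := by
    unfold low
    rw [Subgroup.closure_le]
    rintro _ ⟨j, hj, rfl⟩
    exact h j hj
  exact this hw

theorem eqOn_low {G : Type} [Group G] {i : Fin n} (φ ψ : FreeGroup (Fin n) →* G)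
    (h : ∀ j, j < i → φ (FreeGroup.of j) = ψ (FreeGroup.of j)) {w : FreeGroup (Fin n)}
    (hw : w ∈ low i) : φ w = ψ w := by
  have : low i ≤ φ.eqLocus ψ := by
    unfold low
    rw [Subgroup.closure_le]
    rintro _ ⟨j, hj, rfl⟩
    exact h j hj
  exact this hw

/-- The group of the automorphisms `α` such that for each `i` the element `α (x i)` is of the form
`u * (x i) ^ (± 1) * v`, where `u` and `v` lie in the subgroup generated by the `x j` with
`j < i`. -/
def tri (n : ℕ) : Subgroup (MulAut (FreeGroup (Fin n))) where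
  carrier := {α | ∀ i, Shape i (α (FreeGroup.of i))}
  one_mem' := fun i => ⟨1, one_mem _, 1, one_mem _, Or.inl (by simp)⟩
  mul_mem' := by
    intro α β hα hβ i
    have hlow : ∀ w ∈ low i, α w ∈ low i := fun w hw =>
      map_low_of (α : FreeGroup (Fin n) →* FreeGroup (Fin n)) (fun j hj => (hα j).mem hj) hw
    obtain ⟨u, hu, v, hv, h1 | h1⟩ := hβ i
    · obtain ⟨u', hu', v', hv', h2 | h2⟩ := hα i
      · refine ⟨α u * u', mul_mem (hlow _ hu) hu', v' * α v, mul_mem hv' (hlow _ hv), Or.inl ?_⟩
        rw [MulAut.mul_apply, h1, map_mul, map_mul, h2]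
        group
      · refine ⟨α u * u', mul_mem (hlow _ hu) hu', v' * α v, mul_mem hv' (hlow _ hv), Or.inr ?_⟩
        rw [MulAut.mul_apply, h1, map_mul, map_mul, h2]
        group
    · obtain ⟨u', hu', v', hv', h2 | h2⟩ := hα i
      · refine ⟨α u * v'⁻¹, mul_mem (hlow _ hu) (inv_mem hv'), u'⁻¹ * α v,
          mul_mem (inv_mem hu') (hlow _ hv), Or.inr ?_⟩
        rw [MulAut.mul_apply, h1, map_mul, map_mul, map_inv, h2]
        group
      · refine ⟨α u * v'⁻¹, mul_mem (hlow _ hu) (inv_mem hv'), u'⁻¹ * α v,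
          mul_mem (inv_mem hu') (hlow _ hv), Or.inl ?_⟩
        rw [MulAut.mul_apply, h1, map_mul, map_mul, map_inv, h2]
        group
  inv_mem' := by
    intro α hα
    have key : ∀ k : ℕ, ∀ i : Fin n, (i : ℕ) = k → Shape i (α⁻¹ (FreeGroup.of i)) := by
      intro k
      induction k using Nat.strong_induction_on with
      | _ k ih =>
        intro i hik
        have hlow : ∀ w ∈ low i, α⁻¹ w ∈ low i := fun w hw =>
          map_low_of ((α⁻¹ : MulAut (FreeGroup (Fin n))) : FreeGroup (Fin n) →* FreeGroup (Fin n))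
            (fun j hj => (ih j (by rw [← hik]; exact hj) j rfl).mem hj) hw
        obtain ⟨u, hu, v, hv, h1 | h1⟩ := hα i
        · refine ⟨(α⁻¹ u)⁻¹, inv_mem (hlow _ hu), (α⁻¹ v)⁻¹, inv_mem (hlow _ hv), Or.inl ?_⟩
          have h2 := congrArg (α⁻¹ : MulAut (FreeGroup (Fin n))) h1
          rw [MulAut.inv_apply_self, map_mul, map_mul] at h2
          generalize α⁻¹ (FreeGroup.of i) = y at h2 ⊢
          rw [h2]
          group
        · refine ⟨α⁻¹ v, hlow _ hv, α⁻¹ u, hlow _ hu, Or.inr ?_⟩
          have h2 := congrArg (α⁻¹ : MulAut (FreeGroup (Fin n))) h1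
          rw [MulAut.inv_apply_self, map_mul, map_mul, map_inv] at h2
          generalize α⁻¹ (FreeGroup.of i) = y at h2 ⊢
          rw [h2]
          group
    exact fun i => key i i rfl

/-- substitution of one generator -/
def sub (i : Fin n) (w : FreeGroup (Fin n)) : FreeGroup (Fin n) →* FreeGroup (Fin n) :=
  FreeGroup.lift (Function.update FreeGroup.of i w)

theorem sub_same (i : Fin n) (w : FreeGroup (Fin n)) : sub i w (FreeGroup.of i) = w := by
  rw [sub, FreeGroup.lift_apply_of, Function.update_self]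

theorem sub_ne {i j : Fin n} (h : j ≠ i) (w : FreeGroup (Fin n)) :
    sub i w (FreeGroup.of j) = FreeGroup.of j := by
  rw [sub, FreeGroup.lift_apply_of, Function.update_of_ne h]

theorem sub_low {i : Fin n} (w : FreeGroup (Fin n)) {u : FreeGroup (Fin n)} (hu : u ∈ low i) :
    sub i w u = u :=
  eqOn_low (sub i w) (MonoidHom.id _) (fun j hj => sub_ne hj.ne w) hu

/-- The automorphism `x i ↦ u * x i * v`. -/
def mk (i : Fin n) (u v : low i) : MulAut (FreeGroup (Fin n)) :=
  MonoidHom.toMulEquiv (sub i (u * FreeGroup.of i * v))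
    (sub i ((u : FreeGroup (Fin n))⁻¹ * FreeGroup.of i * (v : FreeGroup (Fin n))⁻¹))
    (by
      ext j
      by_cases h : j = i
      · subst h
        simp only [MonoidHom.comp_apply, sub_same, map_mul, MonoidHom.id_apply]
        rw [sub_low _ u.2, sub_low _ v.2]
        group
      · simp only [MonoidHom.comp_apply, sub_ne h, MonoidHom.id_apply])
    (by
      ext j
      by_cases h : j = i
      · subst h
        simp only [MonoidHom.comp_apply, sub_same, map_mul, map_inv, MonoidHom.id_apply]
        rw [sub_low _ u.2, sub_low _ v.2]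
        group
      · simp only [MonoidHom.comp_apply, sub_ne h, MonoidHom.id_apply])

theorem mk_same (i : Fin n) (u v : low i) :
    mk i u v (FreeGroup.of i) = u * FreeGroup.of i * v := sub_same _ _

theorem mk_ne {i j : Fin n} (h : j ≠ i) (u v : low i) : mk i u v (FreeGroup.of j) = FreeGroup.of j :=
  sub_ne h _

theorem mk_low {i : Fin n} (u v : low i) {w : FreeGroup (Fin n)} (hw : w ∈ low i) :
    mk i u v w = w := sub_low _ hw

theorem mk_mem (i : Fin n) (u v : low i) : mk i u v ∈ tri n := by
  intro j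
  by_cases h : j = i
  · subst h
    exact ⟨u, u.2, v, v.2, Or.inl (mk_same _ _ _)⟩
  · exact ⟨1, one_mem _, 1, one_mem _, Or.inl (by rw [mk_ne h]; simp)⟩

theorem aut_ext {α β : MulAut (FreeGroup (Fin n))}
    (h : ∀ i, α (FreeGroup.of i) = β (FreeGroup.of i)) : α = β := by
  apply MulEquiv.toMonoidHom_injective
  ext i
  exact h i

/-- `u ↦ (x i ↦ u⁻¹ * x i)` -/
def left (i : Fin n) : low i →* tri n where
  toFun u := ⟨mk i u⁻¹ 1, mk_mem _ _ _⟩
  map_one' := by
    apply Subtype.ext
    apply aut_ext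
    intro j
    by_cases h : j = i
    · subst h
      simp [mk_same]
    · simp [mk_ne h]
  map_mul' u v := by
    apply Subtype.ext
    apply aut_ext
    intro j
    change mk i (u * v)⁻¹ 1 (FreeGroup.of j) = mk i u⁻¹ 1 (mk i v⁻¹ 1 (FreeGroup.of j))
    by_cases h : j = i
    · subst h
      rw [mk_same, mk_same, map_mul, map_mul, mk_same, mk_low _ _ (v⁻¹).2, mk_low _ _ (1 : low j).2]
      simp [mul_assoc]
    · rw [mk_ne h, mk_ne h, mk_ne h]

/-- `v ↦ (x i ↦ x i * v)` -/
def right (i : Fin n) : low i →* tri n where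
  toFun v := ⟨mk i 1 v, mk_mem _ _ _⟩
  map_one' := by
    apply Subtype.ext
    apply aut_ext
    intro j
    by_cases h : j = i
    · subst h
      simp [mk_same]
    · simp [mk_ne h]
  map_mul' u v := by
    apply Subtype.ext
    apply aut_ext
    intro j
    change mk i 1 (u * v) (FreeGroup.of j) = mk i 1 u (mk i 1 v (FreeGroup.of j))
    by_cases h : j = i
    · subst h
      rw [mk_same, mk_same, map_mul, map_mul, mk_same, mk_low _ _ v.2, mk_low _ _ (1 : low j).2]
      simp [mul_assoc]
    · rw [mk_ne h, mk_ne h, mk_ne h]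

theorem mk_eq (i : Fin n) (u v : low i) :
    mk i u v = (left i u⁻¹ : MulAut (FreeGroup (Fin n))) * (right i v : MulAut (FreeGroup (Fin n))) := by
  apply aut_ext
  intro j
  change _ = mk i (u⁻¹)⁻¹ 1 (mk i 1 v (FreeGroup.of j))
  by_cases h : j = i
  · subst h
    rw [mk_same, mk_same, map_mul, map_mul, mk_same, mk_low _ _ v.2, mk_low _ _ (1 : low j).2]
    simp
  · rw [mk_ne h, mk_ne h, mk_ne h]

/-- An automorphism whose factors lie in `M` lies in `M`. -/
theorem mem_of_factors (M : Subgroup (MulAut (FreeGroup (Fin n)))) (u v : (i : Fin n) → low i)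
    (h : ∀ i, mk i (u i) (v i) ∈ M) {α : MulAut (FreeGroup (Fin n))}
    (hα : ∀ i, α (FreeGroup.of i) = u i * FreeGroup.of i * v i) : α ∈ M := by
  have key : ∀ k : ℕ, k ≤ n → ∃ s ∈ M, ∀ j : Fin n, s (FreeGroup.of j) =
      if (j : ℕ) < k then (u j * FreeGroup.of j * v j : FreeGroup (Fin n)) else FreeGroup.of j := by
    intro k
    induction k with
    | zero => intro _; exact ⟨1, one_mem _, fun j => by simp⟩
    | succ k ih =>
      intro hk
      obtain ⟨s, hs, hs'⟩ := ih (by omega)
      let i : Fin n := ⟨k, hk⟩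
      refine ⟨mk i (u i) (v i) * s, mul_mem (h i) hs, ?_⟩
      intro j
      rw [MulAut.mul_apply, hs']
      rcases lt_trichotomy (j : ℕ) k with h1 | h1 | h1
      · rw [if_pos h1, if_pos (by omega)]
        have hji : j < i := h1
        have : (u j * FreeGroup.of j * v j : FreeGroup (Fin n)) ∈ low i :=
          mul_mem (mul_mem (low_mono hji.le (u j).2) (of_mem_low hji)) (low_mono hji.le (v j).2)
        exact mk_low _ _ this
      · have hji : j = i := Fin.ext h1
        subst hji
        rw [if_neg (by omega), if_pos (by omega), mk_same]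
      · have hji : j ≠ i := fun h2 => by
          have := congrArg Fin.val h2
          change (j : ℕ) = k at this
          omega
        rw [if_neg (by omega), if_neg (by omega), mk_ne hji]
  obtain ⟨s, hs, hs'⟩ := key n le_rfl
  have : α = s := by
    apply aut_ext
    intro i
    rw [hα, hs', if_pos i.2]
  rw [this]
  exact hs

end Pool.Agent.Q24.CG
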