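import Pool.Agent.H12.RA.AS.Nielsen

/-!
Automorphisms of the free group of rank two acting trivially on the abelianization modulo four.
-/

namespace Pool.Agent.Q171.AS

open FreeGroup

/-- the free group of rank two -/
abbrev FF : Type := FreeGroup (Fin 2)

/-- the first generator -/
abbrev X : FF := of 0
/-- the second generator -/
abbrev Y : FF := of 1

theorem ext2 {G : Type} [Group G] {f g : FF →* G} (h0 : f X = g X) (h1 : f Y = g Y) : f = g := by
  ext i
  fin_cases i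
  · exact h0
  · exact h1

theorem aext {α β : MulAut FF} (h0 : α X = β X) (h1 : α Y = β Y) : α = β := by
  apply MulEquiv.toMonoidHom_injective
  exact ext2 h0 h1

/-- an automorphism given by the images of the generators for it and its inverse -/
def mkA (a b a' b' : FF) (h1 : lift ![a', b'] a = X) (h2 : lift ![a', b'] b = Y)
    (h3 : lift ![a, b] a' = X) (h4 : lift ![a, b] b' = Y) : MulAut FF :=
  MonoidHom.toMulEquiv (lift ![a, b]) (lift ![a', b'])
    (by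
      apply ext2
      · simpa using h1
      · simpa using h2)
    (by
      apply ext2
      · simpa using h3
      · simpa using h4)

theorem mkA_X (a b a' b' : FF) (h1 h2 h3 h4) : mkA a b a' b' h1 h2 h3 h4 X = a := by
  change lift ![a, b] X = a
  simp

theorem mkA_Y (a b a' b' : FF) (h1 h2 h3 h4) : mkA a b a' b' h1 h2 h3 h4 Y = b := by
  change lift ![a, b] Y = b
  simp

/-- `y ↦ x²y` -/
def sA : MulAut FF := mkA X (X * X * Y) X (X⁻¹ * X⁻¹ * Y) (by simp) (by simp [mul_assoc])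
  (by simp) (by simp [mul_assoc])
/-- `x ↦ xy⁻²` -/
def tA : MulAut FF := mkA (X * Y⁻¹ * Y⁻¹) Y (X * Y * Y) Y (by simp [mul_assoc]) (by simp)
  (by simp [mul_assoc]) (by simp)
/-- the inversion of both generators -/
def bA : MulAut FF := mkA X⁻¹ Y⁻¹ X⁻¹ Y⁻¹ (by simp) (by simp) (by simp) (by simp)
/-- the swap -/
def σA : MulAut FF := mkA Y X Y X (by simp) (by simp) (by simp) (by simp)
/-- `x ↦ x⁻¹` -/
def εA : MulAut FF := mkA X⁻¹ Y X⁻¹ Y (by simp) (by simp) (by simp) (by simp)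
/-- `x ↦ xy` -/
def μA : MulAut FF := mkA (X * Y) Y (X * Y⁻¹) Y (by simp) (by simp) (by simp) (by simp)

@[simp] theorem sA_X : sA X = X := mkA_X _ _ _ _ _ _ _ _
@[simp] theorem sA_Y : sA Y = X * X * Y := mkA_Y _ _ _ _ _ _ _ _
@[simp] theorem tA_X : tA X = X * Y⁻¹ * Y⁻¹ := mkA_X _ _ _ _ _ _ _ _
@[simp] theorem tA_Y : tA Y = Y := mkA_Y _ _ _ _ _ _ _ _
@[simp] theorem bA_X : bA X = X⁻¹ := mkA_X _ _ _ _ _ _ _ _
@[simp] theorem bA_Y : bA Y = Y⁻¹ := mkA_Y _ _ _ _ _ _ _ _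
@[simp] theorem σA_X : σA X = Y := mkA_X _ _ _ _ _ _ _ _
@[simp] theorem σA_Y : σA Y = X := mkA_Y _ _ _ _ _ _ _ _
@[simp] theorem εA_X : εA X = X⁻¹ := mkA_X _ _ _ _ _ _ _ _
@[simp] theorem εA_Y : εA Y = Y := mkA_Y _ _ _ _ _ _ _ _
@[simp] theorem μA_X : μA X = X * Y := mkA_X _ _ _ _ _ _ _ _
@[simp] theorem μA_Y : μA Y = Y := mkA_Y _ _ _ _ _ _ _ _
@[simp] theorem μA_inv_X : (MulEquiv.symm μA) X = X * Y⁻¹ := by
  rw [MulEquiv.symm_apply_eq]; simp
@[simp] theorem μA_inv_Y : (MulEquiv.symm μA) Y = Y := by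
  rw [MulEquiv.symm_apply_eq]; simp
@[simp] theorem tA_inv_X : (MulEquiv.symm tA) X = X * Y * Y := by
  rw [MulEquiv.symm_apply_eq]; simp [mul_assoc]
@[simp] theorem tA_inv_Y : (MulEquiv.symm tA) Y = Y := by
  rw [MulEquiv.symm_apply_eq]; simp
@[simp] theorem sA_inv_X : (MulEquiv.symm sA) X = X := by
  rw [MulEquiv.symm_apply_eq]; simp
@[simp] theorem sA_inv_Y : (MulEquiv.symm sA) Y = X⁻¹ * X⁻¹ * Y := by
  rw [MulEquiv.symm_apply_eq]; simp [mul_assoc]

theorem σσ : σA * σA = 1 := aext (by simp) (by simp)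
theorem εε : εA * εA = 1 := aext (by simp) (by simp)
theorem bb : bA * bA = 1 := aext (by simp) (by simp)
theorem σinv : σA⁻¹ = σA := inv_eq_of_mul_eq_one_left σσ
theorem εinv : εA⁻¹ = εA := inv_eq_of_mul_eq_one_left εε
theorem binv : bA⁻¹ = bA := inv_eq_of_mul_eq_one_left bb
theorem μμt : μA * μA * tA = 1 := aext (by simp [mul_assoc]) (by simp)
theorem μt : μA * tA * μA⁻¹ = tA := aext (by simp [mul_assoc]) (by simp)

theorem σs : σA * sA * σA = MulAut.conj (Y * Y) * tA⁻¹ :=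
  aext (by simp [mul_assoc]) (by simp [mul_assoc])
theorem σt : σA * tA * σA = MulAut.conj (X * X) * sA⁻¹ :=
  aext (by simp [mul_assoc]) (by simp [mul_assoc])
theorem σb : σA * bA * σA = bA := aext (by simp) (by simp)
theorem εs : εA * sA * εA = sA⁻¹ := aext (by simp) (by simp)
theorem εt : εA * tA * εA = MulAut.conj (Y * Y) * tA⁻¹ :=
  aext (by simp [mul_assoc]) (by simp [mul_assoc])
theorem εb : εA * bA * εA = bA := aext (by simp) (by simp)
theorem μb : μA * bA * μA⁻¹ = MulAut.conj Y⁻¹ * bA :=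
  aext (by simp [mul_assoc]) (by simp [mul_assoc])
theorem μs : μA * sA * μA⁻¹ =
    MulAut.conj (X * Y * (X * Y * Y) * (X * Y * Y)) * (tA⁻¹ * sA⁻¹ * bA) :=
  aext (by simp [mul_assoc]) (by simp [mul_assoc])
theorem bs : bA * sA * bA = MulAut.conj (X⁻¹ * X⁻¹) * sA :=
  aext (by simp [mul_assoc]) (by simp [mul_assoc])
theorem bt : bA * tA * bA = MulAut.conj (Y⁻¹ * Y⁻¹) * tA :=
  aext (by simp [mul_assoc]) (by simp [mul_assoc])
theorem σε : σA * εA * σA = εA * bA := aext (by simp) (by simp)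
theorem με : μA * εA * μA⁻¹ = MulAut.conj Y * tA⁻¹ * εA :=
  aext (by simp [mul_assoc]) (by simp [mul_assoc])
theorem σμ3 : σA * μA * (σA * μA) * (σA * μA) * εA =
    MulAut.conj (X⁻¹ * (Y⁻¹ * X⁻¹ * X⁻¹) * (Y⁻¹ * X⁻¹ * X⁻¹)) * (sA * tA) :=
  aext (by simp [mul_assoc]) (by simp [mul_assoc])

end Pool.Agent.Q171.AS
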