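import Mathlib

set_option autoImplicit false

open FreeGroup

namespace Pool.Agent.H528.Nielsen

variable {α : Type} [DecidableEq α]

/-- length of the longest common prefix -/
def lcp : List (α × Bool) → List (α × Bool) → ℕ
  | [], _ => 0
  | _ :: _, [] => 0
  | a :: l, b :: m => if a = b then lcp l m + 1 else 0

theorem lcp_comm (L : List (α × Bool)) : ∀ M, lcp L M = lcp M L := by
  induction L with
  | nil => intro M; cases M <;> simp [lcp]
  | cons a l ih =>
    intro M
    cases M with
    | nil => simp [lcp]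
    | cons b m =>
      simp only [lcp]
      by_cases h : a = b
      · rw [if_pos h, if_pos h.symm, ih]
      · rw [if_neg h, if_neg (fun h' => h h'.symm)]

theorem lcp_ultra (L : List (α × Bool)) : ∀ M N, min (lcp L M) (lcp M N) ≤ lcp L N := by
  induction L with
  | nil => intro M N; simp [lcp]
  | cons a l ih =>
    intro M N
    cases M with
    | nil => simp [lcp]
    | cons b m =>
      cases N with
      | nil => simp [lcp]
      | cons c n =>
        simp only [lcp]
        by_cases h : a = b
        · by_cases h' : b = c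
          · rw [if_pos h, if_pos h', if_pos (h.trans h')]
            have := ih m n
            omega
          · rw [if_neg h']; simp
        · rw [if_neg h]; simp

theorem lcp_split (L : List (α × Bool)) : ∀ M, ∃ C L' M', L = C ++ L' ∧ M = C ++ M' ∧
    C.length = lcp L M := by
  induction L with
  | nil => intro M; exact ⟨[], [], M, rfl, rfl, by simp [lcp]⟩
  | cons a l ih =>
    intro M
    cases M with
    | nil => exact ⟨[], a :: l, [], rfl, rfl, by simp [lcp]⟩
    | cons b m =>
      by_cases h : a = b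
      · subst h
        obtain ⟨C, L', M', h1, h2, h3⟩ := ih m
        exact ⟨a :: C, L', M', by rw [h1]; rfl, by rw [h2]; rfl, by simp [lcp, h3]⟩
      · exact ⟨[], a :: l, b :: m, rfl, rfl, by simp [lcp, h]⟩

theorem norm_mk_of_reduced {L : List (α × Bool)} (h : FreeGroup.IsReduced L) : FreeGroup.norm (mk L) = L.length := by
  rw [FreeGroup.norm, toWord_mk, h.reduce_eq]

theorem reduced_invRev {L : List (α × Bool)} (h : FreeGroup.IsReduced L) : FreeGroup.IsReduced (invRev L) := by
  rw [isReduced_iff_reduce_eq] at h ⊢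
  rw [reduce_invRev, h]

theorem norm_lcp (L : List (α × Bool)) : ∀ M, FreeGroup.IsReduced L → FreeGroup.IsReduced M →
    FreeGroup.norm ((mk L)⁻¹ * mk M) + 2 * lcp L M = L.length + M.length := by
  induction L with
  | nil =>
    intro M _ hM
    have e : (mk ([] : List (α × Bool)))⁻¹ * mk M = mk M := by
      rw [show mk ([] : List (α × Bool)) = 1 from rfl]; simp
    rw [e, norm_mk_of_reduced hM]; simp [lcp]
  | cons a l ih =>
    intro M hL hM
    cases M with
    | nil =>
      have e : (mk (a :: l))⁻¹ * mk ([] : List (α × Bool)) = (mk (a :: l))⁻¹ := by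
        rw [show mk ([] : List (α × Bool)) = 1 from rfl]; simp
      rw [e, norm_inv_eq, norm_mk_of_reduced hL]; simp [lcp]
    | cons b m =>
      by_cases h : a = b
      · subst h
        have hl : FreeGroup.IsReduced l := List.IsChain.tail hL
        have hm : FreeGroup.IsReduced m := List.IsChain.tail hM
        have h1 := ih m hl hm
        have e : (mk (a :: l))⁻¹ * mk (a :: m) = (mk l)⁻¹ * mk m := by
          have e1 : mk (a :: l) = mk [a] * mk l := by rw [mul_mk]; rfl
          have e2 : mk (a :: m) = mk [a] * mk m := by rw [mul_mk]; rfl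
          rw [e1, e2]; group
        rw [e]
        simp only [lcp, if_true, List.length_cons]
        omega
      · have hred : FreeGroup.IsReduced (invRev (a :: l) ++ (b :: m)) := by
          unfold FreeGroup.IsReduced
          rw [List.isChain_append]
          refine ⟨reduced_invRev hL, hM, ?_⟩
          intro x hx y hy hxy
          rw [invRev_cons] at hx
          have hx' : x = (a.1, !a.2) := by
            simpa [invRev] using hx.symm
          have hy' : y = b := by simpa using hy.symm
          subst hx' hy'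
          simp only at hxy ⊢
          by_contra hcon
          apply h
          refine Prod.ext hxy ?_
          cases h1 : a.2 <;> cases h2 : y.2 <;> simp_all
        rw [inv_mk, mul_mk, norm_mk_of_reduced hred]
        simp [lcp, h]

/-- common prefix length of group elements -/
def cc (p q : FreeGroup α) : ℕ := lcp p.toWord q.toWord

theorem cc_comm (p q : FreeGroup α) : cc p q = cc q p := lcp_comm _ _

theorem cc_ultra (p q r : FreeGroup α) : min (cc p q) (cc q r) ≤ cc p r := lcp_ultra _ _ _

theorem norm_cc (p q : FreeGroup α) : FreeGroup.norm (p⁻¹ * q) + 2 * cc p q = FreeGroup.norm p + FreeGroup.norm q := by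
  have h := norm_lcp p.toWord q.toWord isReduced_toWord isReduced_toWord
  rw [mk_toWord, mk_toWord] at h
  exact h

theorem norm_sq {p : FreeGroup α} (hp : p ≠ 1) : FreeGroup.norm p < FreeGroup.norm (p * p) := by
  have h1 : (p ^ 2).toWord = reduce ((List.replicate 2 p.toWord).flatten) := by
    rw [toWord_pow]
  rw [pow_two] at h1
  have h2 := reduceCyclically.reduce_flatten_replicate_succ (L := p.toWord) isReduced_toWord 1
  rw [show 1 + 1 = 2 from rfl] at h2
  rw [h2] at h1
  have h3 := reduceCyclically.conj_conjugator_reduceCyclically p.toWord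
  have h4 : FreeGroup.norm (p * p) = 2 * (reduceCyclically.conjugator p.toWord).length
      + 2 * (reduceCyclically p.toWord).length := by
    rw [FreeGroup.norm, h1]
    simp [invRev_length, List.replicate]
    ring
  have h5 : FreeGroup.norm p = 2 * (reduceCyclically.conjugator p.toWord).length
      + (reduceCyclically p.toWord).length := by
    rw [FreeGroup.norm]
    conv_lhs => rw [← h3]
    simp [invRev_length]
    ring
  have h6 : 0 < (reduceCyclically p.toWord).length := by
    rw [List.length_pos_iff]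
    intro h0
    rw [h0, List.append_nil] at h3
    apply hp
    have h7 : p = mk (reduceCyclically.conjugator p.toWord) *
        (mk (reduceCyclically.conjugator p.toWord))⁻¹ := by
      rw [inv_mk, mul_mk, h3, mk_toWord]
    rw [h7, mul_inv_cancel]
  omega

theorem cc_inv {p : FreeGroup α} (hp : p ≠ 1) : 2 * cc p p⁻¹ < FreeGroup.norm p := by
  have h1 := norm_cc p p⁻¹
  have h2 := norm_sq (p := p⁻¹) (by simpa using hp)
  rw [norm_inv_eq] at h1 h2
  omega

/-- the conjugation trick -/
theorem half {a p : FreeGroup α} (h1 : 2 * cc a p = FreeGroup.norm p) (h2 : 2 * cc p⁻¹ a⁻¹ = FreeGroup.norm p)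
    (h3 : FreeGroup.norm p ≤ FreeGroup.norm a) :
    ∃ s : FreeGroup α, FreeGroup.norm (s⁻¹ * p * s) ≤ FreeGroup.norm p ∧ FreeGroup.norm (s⁻¹ * (a * p⁻¹) * s) + FreeGroup.norm p ≤ FreeGroup.norm a := by
  obtain ⟨C, A', P', e1, e2, e3⟩ := lcp_split a.toWord p.toWord
  obtain ⟨D, P'', A'', f1, f2, f3⟩ := lcp_split p⁻¹.toWord a⁻¹.toWord
  have hC : 2 * C.length = FreeGroup.norm p := by rw [e3]; exact h1
  have hD : 2 * D.length = FreeGroup.norm p := by rw [f3]; exact h2
  have hp : FreeGroup.norm p = C.length + P'.length := by rw [FreeGroup.norm, e2, List.length_append]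
  have ha : FreeGroup.norm a = C.length + A'.length := by rw [FreeGroup.norm, e1, List.length_append]
  rw [toWord_inv, e2, invRev_append] at f1
  have hlen : (invRev P').length = D.length := by rw [invRev_length]; omega
  have hDP : invRev P' = D := (List.append_inj f1 hlen).1
  rw [toWord_inv] at f2
  have f2' : a.toWord = invRev A'' ++ P' := by
    have := congrArg invRev f2
    rw [invRev_invRev, invRev_append, ← hDP, invRev_invRev] at this
    exact this
  -- `P'` is a suffix of `A'`
  obtain ⟨m, hm⟩ : ∃ m, A' = m ++ P' := by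
    rw [e1] at f2'
    rcases List.append_eq_append_iff.1 f2' with ⟨m, hm1, hm2⟩ | ⟨m, hm1, hm2⟩
    · exact ⟨m, hm2⟩
    · have : m.length = 0 := by
        have := congrArg List.length hm2
        rw [List.length_append] at this
        omega
      rw [List.length_eq_zero_iff] at this
      rw [this] at hm2
      exact ⟨[], by simpa using hm2.symm⟩
  refine ⟨mk C, ?_, ?_⟩
  · have e : (mk C)⁻¹ * p * mk C = mk (P' ++ C) := by
      have : p = mk C * mk P' := by rw [mul_mk, ← e2, mk_toWord]
      rw [this, ← mul_mk]; group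
    rw [e]
    refine norm_mk_le.trans ?_
    rw [List.length_append]; omega
  · have e : (mk C)⁻¹ * (a * p⁻¹) * mk C = mk m := by
      have h5 : p = mk C * mk P' := by rw [mul_mk, ← e2, mk_toWord]
      have h6 : a = mk C * (mk m * mk P') := by
        rw [mul_mk, mul_mk, ← hm, ← e1, mk_toWord]
      rw [h5]
      nth_rewrite 1 [h6]
      group
    rw [e]
    have := norm_mk_le (L₁ := m)
    have h7 := congrArg List.length hm
    rw [List.length_append] at h7
    omega

/-- closure properties -/
structure Closed (S : Set (FreeGroup α × FreeGroup α)) : Prop where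
  swap : ∀ u v, (u, v) ∈ S → (v, u) ∈ S
  inv : ∀ u v, (u, v) ∈ S → (u⁻¹, v) ∈ S
  mul : ∀ u v, (u, v) ∈ S → (u * v, v) ∈ S
  conj : ∀ u v g, (u, v) ∈ S → (g⁻¹ * u * g, g⁻¹ * v * g) ∈ S

section
variable {S : Set (FreeGroup α × FreeGroup α)} (hS : Closed S) {n : ℕ}
  (hmin : ∀ u v, (u, v) ∈ S → n ≤ FreeGroup.norm u + FreeGroup.norm v)
include hS hmin

theorem minA {p q : FreeGroup α} (h : (p, q) ∈ S) (hn : FreeGroup.norm p + FreeGroup.norm q = n) :
    2 * cc q p ≤ FreeGroup.norm p ∧ 2 * cc q p ≤ FreeGroup.norm q := by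
  have h0 := norm_cc q p
  have h1 : (q⁻¹ * p, q) ∈ S := by
    have := hS.inv _ _ (hS.mul _ _ (hS.inv _ _ h))
    simpa using this
  have h2 : (p, q⁻¹ * p) ∈ S := by
    have := hS.mul _ _ (hS.inv _ _ (hS.swap _ _ h))
    exact hS.swap _ _ this
  have h3 := hmin _ _ h1
  have h4 := hmin _ _ h2
  omega

theorem minB {p q : FreeGroup α} (hp : p ≠ 1) (h : (p, q) ∈ S) (hn : FreeGroup.norm p + FreeGroup.norm q = n) :
    cc q p + cc p⁻¹ q < FreeGroup.norm p ∧ cc q p + cc p⁻¹ q⁻¹ < FreeGroup.norm p := by
  have hpos : 0 < FreeGroup.norm p := Nat.pos_of_ne_zero (by simpa using hp)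
  have h1 := minA hS hmin h hn
  have h2 := minA hS hmin (p := p⁻¹) (q := q) (hS.inv _ _ h) (by rw [norm_inv_eq]; exact hn)
  have hq' : (p⁻¹, q⁻¹) ∈ S := by
    have := hS.swap _ _ (hS.inv _ _ (hS.swap _ _ (hS.inv _ _ h)))
    exact this
  have h3 := minA hS hmin (p := p⁻¹) (q := q⁻¹) hq' (by rw [norm_inv_eq, norm_inv_eq]; exact hn)
  rw [norm_inv_eq] at h2 h3
  rw [cc_comm q p⁻¹] at h2
  rw [cc_comm q⁻¹ p⁻¹] at h3
  constructor
  · by_contra hcon
    have h4 : 2 * cc q p = FreeGroup.norm p := by omega
    have h5 : 2 * cc p⁻¹ q = FreeGroup.norm p := by omega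
    have h6 := cc_ultra p q p⁻¹
    rw [cc_comm p q, cc_comm q p⁻¹] at h6
    have h7 := cc_inv hp
    omega
  · by_contra hcon
    have h4 : 2 * cc q p = FreeGroup.norm p := by omega
    have h5 : 2 * cc p⁻¹ q⁻¹ = FreeGroup.norm p := by omega
    obtain ⟨s, hs1, hs2⟩ := half h4 h5 (by omega)
    have h8 : (s⁻¹ * p * s, s⁻¹ * (q * p⁻¹) * s) ∈ S := by
      apply hS.conj
      have := hS.inv _ _ (hS.swap _ _ (hS.mul _ _ (hS.swap _ _ (hS.inv _ _ h))))
      simpa using this
    have := hmin _ _ h8
    omega

end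

/-- the inverse letter -/
def bar (x : Fin 2 × Bool) : Fin 2 × Bool := (x.1, !x.2)

theorem chain {g : Fin 2 × Bool → FreeGroup α} (hbar : ∀ x, g (bar x) = (g x)⁻¹)
    (H : ∀ a p b, a ≠ p → b ≠ bar p → cc (g a) (g p) + cc (g (bar p)) (g b) < FreeGroup.norm (g p))
    (H2 : ∀ a b, a ≠ b → 2 * cc (g a) (g b) ≤ FreeGroup.norm (g a))
    (H1 : ∀ a, 0 < FreeGroup.norm (g a))
    (L : List (Fin 2 × Bool)) : ∀ p, FreeGroup.IsReduced (p :: L) →
      (∀ a, a ≠ p → cc (g a) (((p :: L).map g).prod) = cc (g a) (g p)) ∧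
      (L ≠ [] → 2 ≤ FreeGroup.norm (((p :: L).map g).prod)) := by
  induction L with
  | nil => intro p _; simp
  | cons b L ih =>
    intro p hred
    have hred' : FreeGroup.IsReduced (b :: L) := List.IsChain.tail hred
    have hbp : b ≠ bar p := by
      intro h
      have := (FreeGroup.isReduced_cons_cons.1 hred).1
      rw [h] at this
      have h2 := this rfl
      simp [bar] at h2
    obtain ⟨i1, i2⟩ := ih b hred'
    set w' := (((b :: L).map g).prod) with hw'
    have hW : (((p :: b :: L).map g).prod) = g p * w' := by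
      rw [List.map_cons, List.prod_cons]
    rw [hW]
    have j1 := i1 (bar p) (fun h => hbp h.symm)
    have j2 := norm_cc (g (bar p)) w'
    rw [hbar p, inv_inv, FreeGroup.norm_inv_eq, ← hbar p, j1] at j2
    have j3 := norm_cc (g p) (g p * w')
    rw [inv_mul_cancel_left] at j3
    have k1 := H2 (bar p) b (fun h => hbp h.symm)
    have k2 := H2 b (bar p) hbp
    rw [hbar p, FreeGroup.norm_inv_eq, ← hbar p] at k1
    rw [cc_comm] at k2
    constructor
    · intro a ha
      have j4 := H a p b ha hbp
      have j5 := cc_ultra (g a) (g p) (g p * w')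
      have j6 := cc_ultra (g a) (g p * w') (g p)
      rw [cc_comm (g p * w') (g p)] at j6
      omega
    · intro _
      by_cases hL : L = []
      · have e : w' = g b := by rw [hw', hL]; simp
        rw [e] at j2 ⊢
        have l1 := H1 p
        have l2 := H1 b
        omega
      · have l1 := i2 hL
        omega

section
variable {S : Set (FreeGroup α × FreeGroup α)} (hS : Closed S)
include hS

theorem combos {g : Fin 2 × Bool → FreeGroup α} (hbar : ∀ x, g (bar x) = (g x)⁻¹)
    (h : (g (0, true), g (1, true)) ∈ S) : ∀ p q : Fin 2 × Bool, p.1 ≠ q.1 → (g p, g q) ∈ S := by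
  have h1 : g (0, false) = (g (0, true))⁻¹ := hbar (0, true)
  have h2 : g (1, false) = (g (1, true))⁻¹ := hbar (1, true)
  have c2 : (g (0, false), g (1, true)) ∈ S := by rw [h1]; exact hS.inv _ _ h
  have c3 : (g (0, true), g (1, false)) ∈ S := by
    rw [h2]; exact hS.swap _ _ (hS.inv _ _ (hS.swap _ _ h))
  have c4 : (g (0, false), g (1, false)) ∈ S := by rw [h1]; exact hS.inv _ _ c3
  rintro ⟨i, b⟩ ⟨j, c⟩ hij
  fin_cases i <;> fin_cases j <;> first
    | exact absurd rfl hij
    | (cases b <;> cases c <;> first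
        | exact h
        | exact c2
        | exact c3
        | exact c4
        | exact hS.swap _ _ h
        | exact hS.swap _ _ c2
        | exact hS.swap _ _ c3
        | exact hS.swap _ _ c4)

end

/-- a subgroup containing the elementary automorphisms is everything -/
theorem nielsen (N : Subgroup (MulAut (FreeGroup (Fin 2))))
    {σ ε μ : MulAut (FreeGroup (Fin 2))} (hσ : σ ∈ N) (hε : ε ∈ N) (hμ : μ ∈ N)
    (hconj : ∀ g, MulAut.conj g ∈ N)
    (hσ0 : σ (of 0) = of 1) (hσ1 : σ (of 1) = of 0)
    (hε0 : ε (of 0) = (of 0)⁻¹) (hε1 : ε (of 1) = of 1)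
    (hμ0 : μ (of 0) = of 0 * of 1) (hμ1 : μ (of 1) = of 1) : N = ⊤ := by
  rw [Subgroup.eq_top_iff']
  by_contra hcon
  push Not at hcon
  obtain ⟨φ0, hφ0⟩ := hcon
  set S : Set (FreeGroup (Fin 2) × FreeGroup (Fin 2)) :=
    {w | ∃ φ : MulAut (FreeGroup (Fin 2)), φ ∉ N ∧ φ (of 0) = w.1 ∧ φ (of 1) = w.2} with hSdef
  have hright : ∀ φ ψ : MulAut (FreeGroup (Fin 2)), φ ∉ N → ψ ∈ N → φ * ψ ∉ N := by
    intro φ ψ h1 h2 h3
    exact h1 ((Subgroup.mul_mem_cancel_right N h2).1 h3)
  have hS : Closed S := by
    refine ⟨?_, ?_, ?_, ?_⟩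
    · rintro u v ⟨φ, h1, h2, h3⟩
      exact ⟨φ * σ, hright _ _ h1 hσ, by rw [MulAut.mul_apply, hσ0, h3],
        by rw [MulAut.mul_apply, hσ1, h2]⟩
    · rintro u v ⟨φ, h1, h2, h3⟩
      exact ⟨φ * ε, hright _ _ h1 hε, by rw [MulAut.mul_apply, hε0, _root_.map_inv, h2],
        by rw [MulAut.mul_apply, hε1, h3]⟩
    · rintro u v ⟨φ, h1, h2, h3⟩
      exact ⟨φ * μ, hright _ _ h1 hμ, by rw [MulAut.mul_apply, hμ0, _root_.map_mul, h2, h3],
        by rw [MulAut.mul_apply, hμ1, h3]⟩
    · rintro u v g ⟨φ, h1, h2, h3⟩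
      refine ⟨MulAut.conj g⁻¹ * φ, fun h4 => h1 ((Subgroup.mul_mem_cancel_left N (hconj _)).1 h4),
        ?_, ?_⟩
      · rw [MulAut.mul_apply, h2, MulAut.conj_apply, inv_inv]
      · rw [MulAut.mul_apply, h3, MulAut.conj_apply, inv_inv]
  -- a minimal pair
  obtain ⟨w, hw, hwmin⟩ : ∃ w ∈ S, ∀ w' ∈ S, FreeGroup.norm w.1 + FreeGroup.norm w.2 ≤
      FreeGroup.norm w'.1 + FreeGroup.norm w'.2 := by
    have hne : S.Nonempty := ⟨(φ0 (of 0), φ0 (of 1)), φ0, hφ0, rfl, rfl⟩
    obtain ⟨w, hw, hm⟩ := (measure (fun w : FreeGroup (Fin 2) × FreeGroup (Fin 2) =>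
      FreeGroup.norm w.1 + FreeGroup.norm w.2)).wf.has_min S hne
    exact ⟨w, hw, fun w' hw' => not_lt.1 (hm w' hw')⟩
  obtain ⟨u, v⟩ := w
  obtain ⟨φ, hφN, hφ0', hφ1'⟩ := id hw
  simp only at hφ0' hφ1'
  set n := FreeGroup.norm u + FreeGroup.norm v with hn
  have hmin : ∀ u' v', (u', v') ∈ S → n ≤ FreeGroup.norm u' + FreeGroup.norm v' :=
    fun u' v' h => hwmin (u', v') h
  -- the letters
  set g : Fin 2 × Bool → FreeGroup (Fin 2) := fun x => φ (mk [x]) with hg
  have hbar : ∀ x, g (bar x) = (g x)⁻¹ := by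
    intro x
    show φ (mk [bar x]) = (φ (mk [x]))⁻¹
    rw [← _root_.map_inv, inv_mk]; rfl
  have hg0 : g (0, true) = u := hφ0'
  have hg1 : g (1, true) = v := hφ1'
  have hbase : (g (0, true), g (1, true)) ∈ S := by rw [hg0, hg1]; exact hw
  have hpair := combos hS hbar hbase
  have hne1 : ∀ x, g x ≠ 1 := by
    intro x hx
    have : mk [x] = (1 : FreeGroup (Fin 2)) := by
      apply φ.injective; rw [_root_.map_one]; exact hx
    have h2 := congrArg FreeGroup.norm this
    rw [norm_mk_of_reduced FreeGroup.IsReduced.singleton] at h2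
    simp at h2
  have hnormbar : ∀ x, FreeGroup.norm (g (bar x)) = FreeGroup.norm (g x) := by
    intro x; rw [hbar, FreeGroup.norm_inv_eq]
  have hnorm0 : ∀ b, FreeGroup.norm (g (0, b)) = FreeGroup.norm u := by
    intro b
    cases b
    · rw [← hg0, ← hnormbar (0, true)]; rfl
    · rw [hg0]
  have hnorm1 : ∀ b, FreeGroup.norm (g (1, b)) = FreeGroup.norm v := by
    intro b
    cases b
    · rw [← hg1, ← hnormbar (1, true)]; rfl
    · rw [hg1]
  have hsum : ∀ p q : Fin 2 × Bool, p.1 ≠ q.1 →
      FreeGroup.norm (g p) + FreeGroup.norm (g q) = n := by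
    rintro ⟨i, b⟩ ⟨j, c⟩ hij
    fin_cases i <;> fin_cases j
    · exact absurd rfl hij
    · show FreeGroup.norm (g (0, b)) + FreeGroup.norm (g (1, c)) = n
      rw [hnorm0, hnorm1]
    · show FreeGroup.norm (g (1, b)) + FreeGroup.norm (g (0, c)) = n
      rw [hnorm0, hnorm1, add_comm]
    · exact absurd rfl hij
  have hpos : ∀ x, 0 < FreeGroup.norm (g x) := fun x =>
    Nat.pos_of_ne_zero (fun h => hne1 x (FreeGroup.norm_eq_zero.1 h))
  have cases1 : ∀ a p : Fin 2 × Bool, a ≠ p → a = bar p ∨ a.1 ≠ p.1 := by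
    rintro ⟨i, b⟩ ⟨j, c⟩ h
    by_cases hij : i = j
    · left
      subst hij
      have hbc : b ≠ c := fun h' => h (by rw [h'])
      simp only [bar]
      cases b <;> cases c <;> simp_all
    · right; exact hij
  have H2 : ∀ a b, a ≠ b → 2 * cc (g a) (g b) ≤ FreeGroup.norm (g a) := by
    intro a b hab
    rcases cases1 b a (fun h => hab h.symm) with h | h
    · rw [h, hbar]; exact (cc_inv (hne1 a)).le
    · have := (minA hS hmin (hpair a b (fun h' => h h'.symm)) (hsum a b (fun h' => h h'.symm))).1
      rw [cc_comm] at this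
      exact this
  have H : ∀ a p b, a ≠ p → b ≠ bar p →
      cc (g a) (g p) + cc (g (bar p)) (g b) < FreeGroup.norm (g p) := by
    intro a p b hap hbp
    rcases cases1 a p hap with ha | ha
    · have h1 : 2 * cc (g a) (g p) < FreeGroup.norm (g p) := by
        rw [ha, hbar, cc_comm]; exact cc_inv (hne1 p)
      have h2 := H2 (bar p) b (fun h => hbp h.symm)
      rw [hnormbar] at h2
      omega
    · have h1 : 2 * cc (g a) (g p) ≤ FreeGroup.norm (g p) := by
        rw [cc_comm]; exact H2 p a (fun h => hap h.symm)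
      rcases cases1 b (bar p) hbp with hb | hb
      · have e : bar (bar p) = p := by simp [bar]
        rw [e] at hb
        have h2 : 2 * cc (g (bar p)) (g b) < FreeGroup.norm (g p) := by
          rw [hb, hbar, cc_comm]; exact cc_inv (hne1 p)
        omega
      · have hB := minB hS hmin (hne1 p) (hpair p a (fun h => ha h.symm))
          (hsum p a (fun h => ha h.symm))
        rw [← hbar p, ← hbar a] at hB
        have hb' : b.1 ≠ p.1 := hb
        have hab : b = a ∨ b = bar a := by
          by_cases hba : b = a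
          · exact Or.inl hba
          · right
            rcases cases1 b a hba with h | h
            · exact h
            · exfalso
              have : ∀ i j k : Fin 2, i ≠ j → k ≠ j → k ≠ i → False := by decide
              exact this _ _ _ ha hb' h
        rcases hab with rfl | rfl
        · exact hB.1
        · exact hB.2
  have hchain := chain hbar H H2 hpos
  have hprod : ∀ L : List (Fin 2 × Bool), (L.map g).prod = φ (mk L) := by
    intro L
    induction L with
    | nil => rw [show mk ([] : List (Fin 2 × Bool)) = 1 from rfl, _root_.map_one]; rfl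
    | cons a L ih =>
      rw [List.map_cons, List.prod_cons, ih]
      show φ (mk [a]) * φ (mk L) = _
      rw [← _root_.map_mul, mul_mk]; rfl
  have letter : ∀ i : Fin 2, ∃ p, φ⁻¹ (of i) = mk [p] := by
    intro i
    have h0 : φ (mk (φ⁻¹ (of i)).toWord) = of i := by
      rw [mk_toWord]; simp
    have hred : FreeGroup.IsReduced (φ⁻¹ (of i)).toWord := isReduced_toWord
    generalize hL : (φ⁻¹ (of i)).toWord = L at h0 hred
    cases L with
    | nil =>
      exfalso
      rw [show mk ([] : List (Fin 2 × Bool)) = 1 from rfl, _root_.map_one] at h0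
      exact FreeGroup.one_ne_of i h0
    | cons p L =>
      have h1 := (hchain L p hred).2
      rw [hprod, h0, FreeGroup.norm_of] at h1
      have hLnil : L = [] := by
        by_contra hne
        have := h1 hne
        omega
      refine ⟨p, ?_⟩
      rw [← mk_toWord (x := φ⁻¹ (of i)), hL, hLnil]
  obtain ⟨p, hp⟩ := letter 0
  obtain ⟨q, hq⟩ := letter 1
  have hinv : (mk [p], mk [q]) ∈ S := ⟨φ⁻¹, fun h => hφN (by simpa using N.inv_mem h), hp, hq⟩
  have hpq : p.1 ≠ q.1 := by
    intro h
    by_cases h' : p = q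
    · rw [h', ← hq] at hp
      have := φ⁻¹.injective hp
      exact absurd (FreeGroup.of_injective this) (by decide)
    · rcases cases1 p q h' with h2 | h2
      · have h3 : mk [p] = (mk [q])⁻¹ := by rw [h2, inv_mk]; rfl
        rw [← hp, ← hq, ← _root_.map_inv] at h3
        have h4 := φ⁻¹.injective h3
        have h5 : (of (0 : Fin 2)).toWord = ((of (1 : Fin 2))⁻¹).toWord := by rw [h4]
        rw [toWord_inv, toWord_of, toWord_of] at h5
        simp [invRev] at h5
      · exact h2 h
  -- bring the pair to standard position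
  have std : (mk [((0 : Fin 2), true)], mk [((1 : Fin 2), true)]) ∈ S := by
    have step1 : ∃ b c : Bool, (mk [((0 : Fin 2), b)], mk [((1 : Fin 2), c)]) ∈ S := by
      obtain ⟨i, b⟩ := p
      obtain ⟨j, c⟩ := q
      fin_cases i <;> fin_cases j
      · exact absurd rfl hpq
      · exact ⟨b, c, hinv⟩
      · exact ⟨c, b, hS.swap _ _ hinv⟩
      · exact absurd rfl hpq
    obtain ⟨b, c, h⟩ := step1
    have e : ∀ i : Fin 2, (mk [(i, false)])⁻¹ = mk [(i, true)] := by
      intro i; rw [inv_mk]; rfl
    have h2 : (mk [((0 : Fin 2), true)], mk [((1 : Fin 2), c)]) ∈ S := by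
      cases b
      · have := hS.inv _ _ h
        rwa [e] at this
      · exact h
    cases c
    · have := hS.swap _ _ (hS.inv _ _ (hS.swap _ _ h2))
      rwa [e] at this
    · exact h2
  obtain ⟨ψ, hψ, hψ0, hψ1⟩ := std
  apply hψ
  have : ψ = 1 := by
    ext x
    have h : ψ.toMonoidHom = MonoidHom.id _ := by
      apply FreeGroup.ext_hom
      intro i
      fin_cases i
      · exact hψ0
      · exact hψ1
    exact DFunLike.congr_fun h x
  rw [this]
  exact N.one_mem

end Pool.Agent.H528.Nielsen
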