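import Mathlib

/-!
Groups with the same finite quotients: counting homomorphisms and lifts.
-/

namespace Pool.Agent.Q24.PG

/-- `G` and `Γ` have the same finite quotients. -/
def SameFQ (G Γ : Type) [Group G] [Group Γ] : Prop :=
  ∀ (Q : Type) [Group Q] [Finite Q],
    (∃ φ : G →* Q, Function.Surjective φ) ↔ (∃ φ : Γ →* Q, Function.Surjective φ)

/-- residually finite -/
def ResFin (G : Type) [Group G] : Prop :=
  ∀ x : G, x ≠ 1 → ∃ (Q : Type) (_ : Group Q) (_ : Finite Q) (φ : G →* Q), φ x ≠ 1

theorem SameFQ.symm {G Γ : Type} [Group G] [Group Γ] (h : SameFQ G Γ) : SameFQ Γ G :=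
  fun Q _ _ => (h Q).symm

theorem SameFQ.trans {G Γ Δ : Type} [Group G] [Group Γ] [Group Δ] (h : SameFQ G Γ)
    (h' : SameFQ Γ Δ) : SameFQ G Δ :=
  fun Q _ _ => (h Q).trans (h' Q)

/-- generated by `d` elements -/
def GenBy (Γ : Type) [Group Γ] (d : ℕ) : Prop :=
  ∃ φ : FreeGroup (Fin d) →* Γ, Function.Surjective φ

theorem comp_left_inj {G Q H : Type} [Group G] [Group Q] [Group H] {p : G →* Q}
    (hp : Function.Surjective p) {f f' : Q →* H} (h : f.comp p = f'.comp p) : f = f' := by
  ext x
  obtain ⟨y, rfl⟩ := hp x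
  exact DFunLike.congr_fun h y

instance finite_hom (G H : Type) [Group G] [Group H] [hG : Group.FG G] [Finite H] :
    Finite (G →* H) := by
  obtain ⟨α, _, φ, hφ⟩ := (Group.fg_iff_exists_freeGroup_hom_surjective_finite).1 hG
  have : Finite (FreeGroup α →* H) := Finite.of_equiv _ (FreeGroup.lift (α := α) (β := H))
  exact Finite.of_injective (fun f : G →* H => f.comp φ) (fun f f' h => comp_left_inj hφ h)

/-- the evaluation homomorphism -/
def evHom (G H : Type) [Group G] [Group H] : G →* ((G →* H) → H) :=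
  MonoidHom.pi (fun f => f)

theorem ev_factor {G H : Type} [Group G] [Group H] (f : G →* H) :
    ((Pi.evalMonoidHom (fun _ : G →* H => H) f).comp (evHom G H).range.subtype).comp
      (evHom G H).rangeRestrict = f := by
  ext x; rfl

/-- A homomorphism to a group embedded in a power of `H` factors through the range of the
evaluation. -/
theorem ev_factor_sub {G H ι : Type} [Group G] [Group H] (R : Subgroup (ι → H)) (f : G →* R) :
    ∃ f' : (evHom G H).range →* R, f'.comp (evHom G H).rangeRestrict = f := by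
  have hker : (evHom G H).rangeRestrict.ker ≤ f.ker := by
    intro x hx
    rw [MonoidHom.mem_ker] at hx ⊢
    apply Subtype.ext
    funext i
    let fi : G →* H := (Pi.evalMonoidHom (fun _ : ι => H) i).comp (R.subtype.comp f)
    have h1 : evHom G H x = 1 := congrArg Subtype.val hx
    have h2 : fi x = 1 := congrFun h1 fi
    exact h2
  refine ⟨(MonoidHom.liftOfSurjective _ (evHom G H).rangeRestrict_surjective) ⟨f, hker⟩, ?_⟩
  exact MonoidHom.liftOfRightInverse_comp _ _ _ ⟨f, hker⟩

/-- A common finite quotient through which all homomorphisms to `H` factor. -/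
theorem common {G Γ : Type} [Group G] [Group Γ] [Group.FG G] [Group.FG Γ] (h : SameFQ G Γ)
    (H : Type) [Group H] [Finite H] :
    ∃ (Q : Type) (_ : Group Q) (_ : Finite Q) (p : G →* Q) (q : Γ →* Q),
      Function.Surjective p ∧ Function.Surjective q ∧ (∀ f : G →* H, ∃ f' : Q →* H, f'.comp p = f) ∧
      (∀ f : Γ →* H, ∃ f' : Q →* H, f'.comp q = f) := by
  obtain ⟨ψ, hψ⟩ := (h (evHom G H).range).1 ⟨_, (evHom G H).rangeRestrict_surjective⟩
  obtain ⟨χ, hχ⟩ := (h (evHom Γ H).range).2 ⟨_, (evHom Γ H).rangeRestrict_surjective⟩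
  obtain ⟨ψ', hψ'⟩ := ev_factor_sub _ ψ
  obtain ⟨χ', hχ'⟩ := ev_factor_sub _ χ
  have s1 : Function.Surjective ψ' := by
    intro y
    obtain ⟨x, hx⟩ := hψ y
    exact ⟨(evHom Γ H).rangeRestrict x, by rw [← hx, ← hψ']; rfl⟩
  have s2 : Function.Surjective χ' := by
    intro y
    obtain ⟨x, hx⟩ := hχ y
    exact ⟨(evHom G H).rangeRestrict x, by rw [← hx, ← hχ']; rfl⟩
  have s3 : Function.Injective ψ' := by
    have h1 : Function.Surjective (χ' ∘ ψ') := s2.comp s1
    have h2 : Function.Injective (χ' ∘ ψ') := Finite.injective_iff_surjective.2 h1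
    exact h2.of_comp
  let e : (evHom Γ H).range ≃* (evHom G H).range := MulEquiv.ofBijective ψ' ⟨s3, s1⟩
  refine ⟨(evHom G H).range, inferInstance, inferInstance, (evHom G H).rangeRestrict,
    e.toMonoidHom.comp (evHom Γ H).rangeRestrict, (evHom G H).rangeRestrict_surjective, ?_, ?_, ?_⟩
  · exact e.surjective.comp (evHom Γ H).rangeRestrict_surjective
  · intro f
    exact ⟨_, ev_factor f⟩
  · intro f
    refine ⟨((Pi.evalMonoidHom (fun _ : Γ →* H => H) f).comp (evHom Γ H).range.subtype).comp
      e.symm.toMonoidHom, ?_⟩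
    ext x
    change ((Pi.evalMonoidHom (fun _ : Γ →* H => H) f).comp (evHom Γ H).range.subtype)
      (e.symm (e ((evHom Γ H).rangeRestrict x))) = f x
    rw [e.symm_apply_apply]
    rfl

/-- lifts of a homomorphism -/
abbrev Lifts {G H L : Type} [Group G] [Group H] [Group L] (π : H →* L) (g : G →* L) : Type :=
  {f : G →* H // π.comp f = g}

section lifts

variable {G Γ H L : Type} [Group G] [Group Γ] [Group H] [Group L]

theorem lifts_comp {Q : Type} [Group Q] (π : H →* L) (p : G →* Q) (hp : Function.Surjective p)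
    (hH : ∀ f : G →* H, ∃ f' : Q →* H, f'.comp p = f) (g : Q →* L) :
    Nat.card (Lifts π (g.comp p)) = Nat.card (Lifts π g) := by
  symm
  apply Nat.card_congr
  refine Equiv.ofBijective (fun f => ⟨f.1.comp p, by rw [← MonoidHom.comp_assoc, f.2]⟩) ⟨?_, ?_⟩
  · intro f f' h
    apply Subtype.ext
    exact comp_left_inj hp (congrArg Subtype.val h)
  · rintro ⟨f, hf⟩
    obtain ⟨f', rfl⟩ := hH f
    refine ⟨⟨f', ?_⟩, rfl⟩
    apply comp_left_inj hp
    rw [MonoidHom.comp_assoc]
    exact hf

/-- Transfer of lifts between groups with the same finite quotients. -/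
theorem transfer [Group.FG G] [Group.FG Γ] (h : SameFQ G Γ) [Finite H] [Finite L] (π : H →* L) :
    ∃ (Q : Type) (_ : Group Q) (_ : Finite Q) (p : G →* Q) (q : Γ →* Q),
      Function.Surjective p ∧ Function.Surjective q ∧
      (∀ f : G →* L, ∃ f' : Q →* L, f'.comp p = f) ∧
      (∀ f : Γ →* L, ∃ f' : Q →* L, f'.comp q = f) ∧
      (∀ f : G →* H, ∃ f' : Q →* H, f'.comp p = f) ∧
      (∀ f : Γ →* H, ∃ f' : Q →* H, f'.comp q = f) ∧
      ∀ g : Q →* L, Nat.card (Lifts π (g.comp p)) = Nat.card (Lifts π (g.comp q)) := by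
  obtain ⟨Q, _, _, p, q, hp, hq, h1, h2⟩ := common h (H × L)
  have h1L : ∀ f : G →* L, ∃ f' : Q →* L, f'.comp p = f := by
    intro f
    obtain ⟨f', hf'⟩ := h1 ((MonoidHom.inr H L).comp f)
    refine ⟨(MonoidHom.snd H L).comp f', ?_⟩
    rw [MonoidHom.comp_assoc, hf']
    ext x; rfl
  have h2L : ∀ f : Γ →* L, ∃ f' : Q →* L, f'.comp q = f := by
    intro f
    obtain ⟨f', hf'⟩ := h2 ((MonoidHom.inr H L).comp f)
    refine ⟨(MonoidHom.snd H L).comp f', ?_⟩
    rw [MonoidHom.comp_assoc, hf']
    ext x; rfl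
  have h1H : ∀ f : G →* H, ∃ f' : Q →* H, f'.comp p = f := by
    intro f
    obtain ⟨f', hf'⟩ := h1 ((MonoidHom.inl H L).comp f)
    refine ⟨(MonoidHom.fst H L).comp f', ?_⟩
    rw [MonoidHom.comp_assoc, hf']
    ext x; rfl
  have h2H : ∀ f : Γ →* H, ∃ f' : Q →* H, f'.comp q = f := by
    intro f
    obtain ⟨f', hf'⟩ := h2 ((MonoidHom.inl H L).comp f)
    refine ⟨(MonoidHom.fst H L).comp f', ?_⟩
    rw [MonoidHom.comp_assoc, hf']
    ext x; rfl
  refine ⟨Q, inferInstance, inferInstance, p, q, hp, hq, h1L, h2L, h1H, h2H, ?_⟩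
  intro g
  rw [lifts_comp π p hp h1H, lifts_comp π q hq h2H]

/-- Lifts of the trivial homomorphism. -/
theorem card_lifts_one (π : H →* L) : Nat.card (Lifts π (1 : G →* L)) = Nat.card (G →* π.ker) := by
  apply Nat.card_congr
  exact
    { toFun := fun f => f.1.codRestrict π.ker (fun x => DFunLike.congr_fun f.2 x)
      invFun := fun f => ⟨π.ker.subtype.comp f, by ext x; exact (f x).2⟩
      left_inv := fun f => by ext x; rfl
      right_inv := fun f => by ext x; rfl }

/-- Lifts of homomorphisms of a free product. -/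
theorem card_lifts_coprod {A B : Type} [Group A] [Group B] (π : H →* L)
    (g : Monoid.Coprod A B →* L) :
    Nat.card (Lifts π g) = Nat.card (Lifts π (g.comp Monoid.Coprod.inl)) *
      Nat.card (Lifts π (g.comp Monoid.Coprod.inr)) := by
  rw [← Nat.card_prod]
  apply Nat.card_congr
  exact
    { toFun := fun f => (⟨f.1.comp Monoid.Coprod.inl, by rw [← MonoidHom.comp_assoc, f.2]⟩,
        ⟨f.1.comp Monoid.Coprod.inr, by rw [← MonoidHom.comp_assoc, f.2]⟩)
      invFun := fun f => ⟨Monoid.Coprod.lift f.1.1 f.2.1, by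
        apply Monoid.Coprod.hom_ext
        · rw [MonoidHom.comp_assoc, Monoid.Coprod.lift_comp_inl, f.1.2]
        · rw [MonoidHom.comp_assoc, Monoid.Coprod.lift_comp_inr, f.2.2]⟩
      left_inv := fun f => by
        apply Subtype.ext
        apply Monoid.Coprod.hom_ext
        · exact Monoid.Coprod.lift_comp_inl _ _
        · exact Monoid.Coprod.lift_comp_inr _ _
      right_inv := fun f => by
        apply Prod.ext
        · apply Subtype.ext
          exact Monoid.Coprod.lift_comp_inl _ _
        · apply Subtype.ext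
          exact Monoid.Coprod.lift_comp_inr _ _ }

theorem card_hom_coprod (A B H : Type) [Group A] [Group B] [Group H] :
    Nat.card (Monoid.Coprod A B →* H) = Nat.card (A →* H) * Nat.card (B →* H) := by
  rw [← Nat.card_prod]
  exact Nat.card_congr (Monoid.Coprod.liftEquiv (M := A) (N := B) (P := H)).symm

theorem card_fiber [Finite H] (π : H →* L) (hπ : Function.Surjective π) (l : L) :
    Nat.card {h : H // π h = l} = Nat.card π.ker := by
  obtain ⟨h0, rfl⟩ := hπ l
  apply Nat.card_congr
  exact
    { toFun := fun h => ⟨h0⁻¹ * h.1, by rw [MonoidHom.mem_ker, map_mul, map_inv, h.2]; simp⟩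
      invFun := fun h => ⟨h0 * h.1, by rw [map_mul, h.2]; simp⟩
      left_inv := fun h => by simp
      right_inv := fun h => by simp }

/-- Lifts of homomorphisms of a free group. -/
theorem card_lifts_free [Finite H] (π : H →* L) (hπ : Function.Surjective π) {n : ℕ}
    (g : FreeGroup (Fin n) →* L) : Nat.card (Lifts π g) = Nat.card π.ker ^ n := by
  have e : Lifts π g ≃ ((i : Fin n) → {h : H // π h = g (FreeGroup.of i)}) :=
    { toFun := fun f i => ⟨f.1 (FreeGroup.of i), DFunLike.congr_fun f.2 _⟩
      invFun := fun c => ⟨FreeGroup.lift (fun i => (c i).1), by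
        ext i
        simp [(c i).2]⟩
      left_inv := fun f => by
        apply Subtype.ext
        ext i
        simp
      right_inv := fun c => by
        funext i
        apply Subtype.ext
        simp }
  rw [Nat.card_congr e, Nat.card_pi]
  simp only [card_fiber π hπ]
  simp

theorem card_hom_free (H : Type) [Group H] [Finite H] (n : ℕ) :
    Nat.card (FreeGroup (Fin n) →* H) = Nat.card H ^ n := by
  rw [← Nat.card_congr (FreeGroup.lift (α := Fin n) (β := H)), Nat.card_pi]
  simp

/-- Upper bound for the number of lifts of a homomorphism of a group with `d` generators. -/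
theorem card_lifts_le [Finite H] (π : H →* L) (hπ : Function.Surjective π) {d : ℕ}
    (hd : GenBy Γ d) (g : Γ →* L) : Nat.card (Lifts π g) ≤ Nat.card π.ker ^ d := by
  obtain ⟨φ, hφ⟩ := hd
  rw [← card_lifts_free π hπ (g.comp φ)]
  have : Finite (Lifts π (g.comp φ)) := by
    have : Finite (FreeGroup (Fin d) →* H) := inferInstance
    exact Subtype.finite
  apply Nat.card_le_card_of_injective
    (fun f : Lifts π g => (⟨f.1.comp φ, by rw [← MonoidHom.comp_assoc, f.2]⟩ : Lifts π (g.comp φ)))
  intro f f' h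
  apply Subtype.ext
  exact comp_left_inj hφ (congrArg Subtype.val h)

end lifts

/-- Same finite quotients: same numbers of homomorphisms. -/
theorem card_hom_eq {G Γ : Type} [Group G] [Group Γ] [Group.FG G] [Group.FG Γ] (h : SameFQ G Γ)
    (H : Type) [Group H] [Finite H] : Nat.card (G →* H) = Nat.card (Γ →* H) := by
  obtain ⟨Q, _, _, p, q, hp, hq, h1, h2⟩ := common h H
  have e1 : Nat.card (Q →* H) = Nat.card (G →* H) := by
    apply Nat.card_congr
    refine Equiv.ofBijective (fun f => f.comp p) ⟨fun f f' h => comp_left_inj hp h, fun f => h1 f⟩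
  have e2 : Nat.card (Q →* H) = Nat.card (Γ →* H) := by
    apply Nat.card_congr
    refine Equiv.ofBijective (fun f => f.comp q) ⟨fun f f' h => comp_left_inj hq h, fun f => h2 f⟩
  rw [← e1, e2]

end Pool.Agent.Q24.PG
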